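import Pool.Agent.helper60.DB.SpecI

/-! Row bi:ID of helper60's plan (MP_fb2c2a_nt): the three term relation on the `s`-line. -/

set_option autoImplicit false

namespace Pool.Agent.helper60.DB

open Polynomial Finset Pool.Agent.helper60.DK

theorem ID_hm (d : ℕ) (c : ℤ) (f : ℤ[X]) : DA.hm d (C c * f) = C c * DA.hm d f := by
  unfold DA.hm
  rw [Finset.mul_sum]
  refine Finset.sum_congr rfl fun i _ => ?_
  rw [coeff_C_mul, C_mul, mul_assoc]

theorem ID_St (p : ℕ) : (DA.St p).natDegree ≤ 3 * hh p := by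
  unfold DA.St
  refine natDegree_sum_le_of_forall_le _ _ fun i hi => ?_
  have h1 : i ≤ 3 * hh p := by
    have := Finset.mem_range.1 hi
    omega
  exact (natDegree_C_mul_X_pow_le _ _).trans h1

/-- one step: divisibility by `p` -/
theorem ID_step (h1 : LL_stmt) (h5 : CU_stmt) (p : ℕ) [Fact p.Prime] (hp : 5 ≤ p) (f Z : ℤ[X])
    (hd : f.natDegree < 4 * p) (hL : Lam (p : ℤ) f = C (p : ℤ) * Z)
    (e1 : (p : ℤ) ∣ f.eval 1) (e2 : (p : ℤ) ∣ f.eval (-1)) (e3 : (p : ℤ) ∣ f.eval 2)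
    (e4 : (p : ℤ) ∣ f.eval (-2)) : ∃ E : ℤ[X], f = C (p : ℤ) * E := by
  have hp0 : (Int.castRingHom (ZMod p)) (p : ℤ) = 0 := by
    rw [eq_intCast, Int.cast_natCast]
    exact ZMod.natCast_self p
  have hev : ∀ c : ℤ, (p : ℤ) ∣ f.eval c →
      (f.map (Int.castRingHom (ZMod p))).eval ((Int.castRingHom (ZMod p)) c) = 0 := by
    intro c hc
    rw [eval_map_apply]
    obtain ⟨k, hk⟩ := hc
    rw [hk, map_mul, hp0, zero_mul]
  have h2 : Lam (0 : ZMod p) (f.map (Int.castRingHom (ZMod p))) = 0 := by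
    have h3 := (h1 ℤ (p : ℤ)).2.2.2.2 (ZMod p) (Int.castRingHom (ZMod p)) f
    rw [hp0, hL, Polynomial.map_mul, map_C, hp0, C_0, zero_mul] at h3
    exact h3.symm
  have h4 : f.map (Int.castRingHom (ZMod p)) = 0 := by
    refine h5 p hp _ (lt_of_le_of_lt natDegree_map_le hd) h2 ?_ ?_ ?_ ?_
    · have := hev 1 e1
      simpa using this
    · have := hev (-1) e2
      simpa using this
    · have := hev 2 e3
      simpa using this
    · have := hev (-2) e4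
      simpa using this
  have h6 : C (p : ℤ) ∣ f := by
    rw [C_dvd_iff_dvd_coeff]
    intro i
    have h7 : (f.map (Int.castRingHom (ZMod p))).coeff i = 0 := by
      rw [h4, coeff_zero]
    rw [coeff_map, eq_intCast] at h7
    exact (ZMod.intCast_zmod_eq_zero_iff_dvd _ p).1 h7
  exact h6

theorem ID (h1 : LL_stmt) (h2 : LE_stmt) (h3 : LT_stmt) (h4 : LF_stmt) (h5 : CU_stmt)
    (h6 : LS_stmt) (h7 : DV_stmt) : ID_stmt := by
  intro p _ hp
  have hodd : 2 * hh p + 1 = p := by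
    have h8 : p.Prime := Fact.out
    have h9 : p % 2 = 1 := by
      rcases h8.eq_two_or_odd with h | h
      · omega
      · exact h
    unfold hh
    omega
  have hodd' : (2 * (hh p : ℤ) + 1) = (p : ℤ) := by exact_mod_cast hodd
  obtain ⟨hadd, hsub, hC, -, -⟩ := h1 ℤ (p : ℤ)
  obtain ⟨hdeg, d1, d2, d3, d4⟩ := h7 p hp
  -- the operator
  have hL : ∃ Z : ℤ[X], Lam (p : ℤ) (Dl p) = C ((p : ℤ) ^ 2) * Z := by
    obtain ⟨Z₁, hZ₁⟩ := h6 p hp
    have a1 := h3 (hh p) (DA.St p) (ID_St p)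
    rw [hodd', hZ₁, ID_hm] at a1
    have a2 := h4 (hh p)
    rw [hodd', hodd] at a2
    have a3 : (2 - X) ^ p * (Kf (hh p)).comp (-X) = ((X + 2) ^ p * Kf (hh p)).comp (-X) := by
      rw [mul_comp, pow_comp, add_comp, X_comp]
      have : (2 : ℤ[X]).comp (-X) = 2 := by
        rw [show (2 : ℤ[X]) = C 2 from rfl, C_comp]
      rw [this]
      ring
    have a4 := h2 ℤ (p : ℤ) ((X + 2) ^ p * Kf (hh p))
    unfold Dl
    rw [a3, hsub, hsub, hC, a1, a4, a2]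
    refine ⟨C (4 * (-1) ^ hh p * 16 ^ hh p) * (-2 * X * (X ^ 2 - 1) * DA.hm (3 * hh p + 2) Z₁) -
      (-36 * (X ^ 2 + 2 * X - 2) * C ((p : ℤ) * c3 (hh p)) * (UU ^ (hh p + 1) * (X + 2) ^ p)) +
      (-36 * (X ^ 2 + 2 * X - 2) * C ((p : ℤ) * c3 (hh p)) * (UU ^ (hh p + 1) * (X + 2) ^ p)).comp (-X), ?_⟩
    have a5 : (-36 * (X ^ 2 + 2 * X - 2) * C ((p : ℤ) ^ 3 * c3 (hh p)) *
        (UU ^ (hh p + 1) * (X + 2) ^ p) : ℤ[X]) = C ((p : ℤ) ^ 2) *
        (-36 * (X ^ 2 + 2 * X - 2) * C ((p : ℤ) * c3 (hh p)) * (UU ^ (hh p + 1) * (X + 2) ^ p)) := by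
      have : (C ((p : ℤ) ^ 3 * c3 (hh p)) : ℤ[X]) = C ((p : ℤ) ^ 2) * C ((p : ℤ) * c3 (hh p)) := by
        rw [← C_mul]
        congr 1
        ring
      rw [this]
      ring
    rw [a5, mul_comp, C_comp]
    ring
  obtain ⟨Z, hZ⟩ := hL
  have hsq : (p : ℤ) ∣ (p : ℤ) ^ 2 := ⟨p, by ring⟩
  have hsqC : (C ((p : ℤ) ^ 2) : ℤ[X]) = C (p : ℤ) * C (p : ℤ) := by rw [← C_mul, sq]
  obtain ⟨E, hE⟩ := ID_step h1 h5 p hp (Dl p) (C (p : ℤ) * Z) hdeg
    (by rw [hZ, hsqC, mul_assoc]) (hsq.trans d1) (hsq.trans d2) (hsq.trans d3) (hsq.trans d4)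
  have hpne : (p : ℤ) ≠ 0 := by
    have : p ≠ 0 := by omega
    exact_mod_cast this
  have hCne : (C (p : ℤ) : ℤ[X]) ≠ 0 := C_ne_zero.2 hpne
  have hdE : E.natDegree < 4 * p := by
    rw [hE, natDegree_C_mul hpne] at hdeg
    exact hdeg
  have hev : ∀ c : ℤ, (p : ℤ) ^ 2 ∣ (Dl p).eval c → (p : ℤ) ∣ E.eval c := by
    intro c hc
    rw [hE, eval_C_mul, sq] at hc
    exact Int.dvd_of_mul_dvd_mul_left hpne hc
  have hLE : Lam (p : ℤ) E = C (p : ℤ) * Z := by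
    apply mul_left_cancel₀ hCne
    rw [← hC, ← hE, hZ, hsqC, mul_assoc]
  obtain ⟨E', hE'⟩ := ID_step h1 h5 p hp E Z hdE hLE (hev 1 d1) (hev (-1) d2) (hev 2 d3) (hev (-2) d4)
  refine ⟨E', ?_⟩
  rw [hE, hE', hsqC, mul_assoc]

end Pool.Agent.helper60.DB
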