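import Pool.Agent.helper60.DB.SpecM

/-!
Row bm:MM: base change along a ring homomorphism.
-/

namespace Pool.Agent.helper60.DB

open Polynomial

lemma MM_der {R S : Type} [CommRing R] [CommRing S] (φ : R →+* S) (f : PowerSeries R) :
    PowerSeries.map φ (PowerSeries.derivative R f)
      = PowerSeries.derivative S (PowerSeries.map φ f) := by
  ext n
  simp [PowerSeries.coeff_derivative, PowerSeries.coeff_map, map_mul, map_add]

lemma MM_EE {R S : Type} [CommRing R] [CommRing S] (φ : R →+* S) (f : PowerSeries R) :
    PowerSeries.map φ (EE f) = EE (PowerSeries.map φ f) := by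
  unfold EE
  rw [map_mul, map_mul, MM_der, PowerSeries.map_X, map_ofNat]

lemma MM_cc {R S : Type} [CommRing R] [CommRing S] (φ : R →+* S) (f : PowerSeries R) :
    PowerSeries.constantCoeff (PowerSeries.map φ f) = φ (PowerSeries.constantCoeff f) := by
  rw [← PowerSeries.coeff_zero_eq_constantCoeff_apply, ← PowerSeries.coeff_zero_eq_constantCoeff_apply,
    PowerSeries.coeff_map]

theorem MM : MM_stmt := by
  intro R S _ _ φ A' B' α y g u
  refine ⟨?_, ?_⟩
  · rintro ⟨cg, cu, cur, ode⟩
    refine ⟨?_, ?_, ?_, ?_⟩
    · rw [MM_cc, cg]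
    · rw [MM_cc, cu, map_one]
    · have h := congrArg (PowerSeries.map φ) cur
      simpa only [map_mul, map_add, map_pow, map_one, PowerSeries.map_C, PowerSeries.map_X] using h
    · have h := congrArg (PowerSeries.map φ) ode
      simpa only [map_mul, map_add, map_pow, map_one, PowerSeries.map_C, PowerSeries.map_X,
        MM_EE] using h
  · rintro ⟨sq, one⟩
    refine ⟨?_, ?_⟩
    · have h := congrArg (PowerSeries.map φ) sq
      simpa only [map_mul, map_add, map_pow, map_one, PowerSeries.map_C, PowerSeries.map_X] using h
    · rw [MM_cc, one, map_one]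

end Pool.Agent.helper60.DB
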