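import Pool.Agent.helper60.DB.SpecC

/-!
Row bc:XD: the coefficients of `X^j g^(2j) (g + EE g)` modulo `p³`.
-/

namespace Pool.Agent.helper60.DB

open Polynomial Finset

lemma XD_coeff_dvd {R k : Type} [CommRing R] [Field k] (p m : ℕ) (q : R →+* k) (hL : Loc p q)
    (g : PowerSeries R) (N D : R[X])
    (hDg : (D : PowerSeries R) * g = (N : PowerSeries R))
    (hN : N.map q = C (q (N.coeff m)) * X ^ m) (hD : D.map q = 1) (i : ℕ) (hi : i < m) :
    (p : R) ∣ PowerSeries.coeff i g := by
  rw [← hL.ker]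
  have h1 := congrArg (PowerSeries.map q) hDg
  have h2 : PowerSeries.map q (D : PowerSeries R) = ((D.map q : k[X]) : PowerSeries k) := by
    ext n
    simp [Polynomial.coeff_coe]
  have h3 : PowerSeries.map q (N : PowerSeries R) = ((N.map q : k[X]) : PowerSeries k) := by
    ext n
    simp [Polynomial.coeff_coe]
  rw [map_mul, h2, h3, hD, Polynomial.coe_one, one_mul] at h1
  have h4 := congrArg (PowerSeries.coeff i) h1
  rw [PowerSeries.coeff_map, Polynomial.coeff_coe, hN, Polynomial.coeff_C_mul,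
    Polynomial.coeff_X_pow, if_neg (by omega), mul_zero] at h4
  exact h4

lemma XD_split {R k : Type} [CommRing R] [Field k] (p m : ℕ) (q : R →+* k) (hL : Loc p q)
    (hPV : PV_stmt) (g : PowerSeries R) (hg : ∀ i, i < m → (p : R) ∣ PowerSeries.coeff i g) :
    ∃ g1 : PowerSeries R, (PowerSeries.X : PowerSeries R) ^ m ∣ g - PowerSeries.C (p : R) * g1 := by
  set t : PowerSeries R := ((PowerSeries.trunc m g : R[X]) : PowerSeries R) with ht
  have hc : ∀ n, PowerSeries.coeff n t = if n < m then PowerSeries.coeff n g else 0 := by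
    intro n
    rw [ht, Polynomial.coeff_coe, PowerSeries.coeff_trunc]
  have h0 : PowerSeries.map q t = 0 := by
    ext n
    rw [PowerSeries.coeff_map, hc]
    by_cases hn : n < m
    · rw [if_pos hn, (hL.ker _).2 (hg n hn)]
      simp
    · rw [if_neg hn]
      simp
  obtain ⟨g1, hg1⟩ := ((hPV R k p q hL).1 t).1 h0
  refine ⟨g1, ?_⟩
  rw [← hg1, PowerSeries.X_pow_dvd_iff]
  intro n hn
  rw [map_sub, hc, if_pos hn, sub_self]

lemma XD_pow {R : Type} [CommRing R] (p : R) (m n i : ℕ) (hi : i < m) (g g1 : PowerSeries R)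
    (h : (PowerSeries.X : PowerSeries R) ^ m ∣ g - PowerSeries.C p * g1) :
    p ^ n ∣ PowerSeries.coeff i (g ^ n) := by
  have h1 : (PowerSeries.X : PowerSeries R) ^ m ∣ g ^ n - (PowerSeries.C p * g1) ^ n :=
    h.trans (sub_dvd_pow_sub_pow _ _ n)
  have h2 := (PowerSeries.X_pow_dvd_iff.1 h1) i hi
  rw [map_sub, sub_eq_zero] at h2
  rw [h2, mul_pow, ← map_pow, PowerSeries.coeff_C_mul]
  exact Dvd.intro _ rfl

theorem XD (hPV : PV_stmt) (hXJ : XJ_stmt) : XD_stmt := by
  intro R k _ _ _ _ p m _ _ q hL hp5 hpm g N D hD0 hDg hN hD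
  have hg : ∀ i, i < m → (p : R) ∣ PowerSeries.coeff i g :=
    XD_coeff_dvd p m q hL g N D hDg hN hD
  obtain ⟨g1, hg1⟩ := XD_split p m q hL hPV g hg
  have hpR : (2 * (m : R) + 1) = (p : R) := by rw [hpm]; push_cast; ring
  have hp0 : (p : R) ≠ 0 := by
    have : p ≠ 0 := by omega
    exact_mod_cast this
  refine ⟨?_, ?_⟩
  · intro j hj1 hjm
    have hx := hXJ R g j m hjm
    rw [hpR] at hx
    obtain ⟨c, hc⟩ := XD_pow (p : R) m (2 * j + 1) (m - j) (by omega) g g1 hg1
    by_cases hjlt : j < m
    · have hu : IsUnit (2 * (j : R) + 1) := by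
        apply hL.unit
        intro h0
        have h1 : ((2 * j + 1 : ℕ) : k) = 0 := by
          have h2 : (2 * (j : R) + 1) = ((2 * j + 1 : ℕ) : R) := by push_cast; ring
          rw [h2, map_natCast] at h0
          exact h0
        rw [CharP.cast_eq_zero_iff k p] at h1
        have := Nat.le_of_dvd (by omega) h1
        omega
      have h3 : (p : R) ^ 3 ∣ (2 * (j : R) + 1) *
          PowerSeries.coeff m (PowerSeries.X ^ j * g ^ (2 * j) * (g + EE g)) := by
        rw [hx, hc, ← mul_assoc, ← pow_succ']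
        exact (pow_dvd_pow _ (by omega)).trans (Dvd.intro _ rfl)
      exact (hu.dvd_mul_left).1 h3
    · have hjm' : j = m := by omega
      subst hjm'
      rw [hpR] at hx
      have h4 := mul_left_cancel₀ hp0 hx
      rw [h4, hc]
      exact (pow_dvd_pow _ (by omega)).trans (Dvd.intro _ rfl)
  · have hx := hXJ R g 0 m (Nat.zero_le _)
    rw [hpR] at hx
    have h5 : PowerSeries.coeff m (PowerSeries.X ^ 0 * g ^ (2 * 0) * (g + EE g))
        = (p : R) * PowerSeries.coeff m g := by
      have h6 : (2 * ((0 : ℕ) : R) + 1) = 1 := by simp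
      rw [h6, one_mul] at hx
      rw [hx]
      simp
    rw [h5, ← mul_sub, pow_succ']
    apply mul_dvd_mul_left
    have h7 : N.coeff m = PowerSeries.coeff m ((D : PowerSeries R) * g) := by
      rw [hDg, Polynomial.coeff_coe]
    rw [h7, PowerSeries.coeff_mul]
    have h8 : ((0, m) : ℕ × ℕ) ∈ Finset.HasAntidiagonal.antidiagonal m := by simp
    rw [← Finset.add_sum_erase _ _ h8]
    have h9 : PowerSeries.coeff (0, m).1 (D : PowerSeries R) * PowerSeries.coeff (0, m).2 g
        = PowerSeries.coeff m g := by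
      show PowerSeries.coeff 0 (D : PowerSeries R) * PowerSeries.coeff m g = _
      rw [Polynomial.coeff_coe, hD0, one_mul]
    rw [h9, sub_add_cancel_left, dvd_neg]
    apply Finset.dvd_sum
    intro x hx
    rw [Finset.mem_erase, Finset.HasAntidiagonal.mem_antidiagonal] at hx
    obtain ⟨hxne, hxm⟩ := hx
    have hx1 : x.1 ≠ 0 := by
      intro h0
      apply hxne
      ext
      · exact h0
      · show x.2 = m
        omega
    rw [pow_two]
    apply mul_dvd_mul
    · rw [Polynomial.coeff_coe, ← hL.ker, ← Polynomial.coeff_map, hD, Polynomial.coeff_one,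
        if_neg hx1]
    · exact hg _ (by omega)

end Pool.Agent.helper60.DB
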